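import Mathlib
import Pool.Agent.CCM.Abs

/-!
# An Euler characteristic criterion for crossing-critical multiplications

A graph has vertices `Fin n` and edges `Fin k`; the edge `i` joins `s i` and `t i`, and parallel
edges are allowed. Drawings are topological. `cr s t m` is the least weighted number of crossings
over all drawings of the graph, where a crossing of the edges `i` and `j` counts `m i * m j` times;
this is the crossing number of the multiplication in which the edge `i` is replaced by `m i`
parallel edges.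
-/

set_option autoImplicit false

open Finset

namespace Pool.Agent.Results.MP_3ebe94_co.EulerCriterion

open Pool.Agent.CCM

/-- A drawing in the plane of the graph with edges `i` joining `s i` and `t i`: the vertices are
distinct points, each edge is a simple arc joining its ends whose interior avoids the vertices, and
two edges have only finitely many common interior points. -/
structure Drawing {n k : ℕ} (s t : Fin k → Fin n) where
  pt : Fin n → ℂ
  pt_inj : Function.Injective pt
  arc : Fin k → ℝ → ℂ
  arc_cont : ∀ i, ContinuousOn (arc i) (Set.Icc 0 1)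
  arc_inj : ∀ i, Set.InjOn (arc i) (Set.Icc 0 1)
  arc_zero : ∀ i, arc i 0 = pt (s i)
  arc_one : ∀ i, arc i 1 = pt (t i)
  avoid : ∀ i v, ∀ x ∈ Set.Ioo (0 : ℝ) 1, arc i x ≠ pt v
  fin : ∀ i j, i ≠ j → (arc i '' Set.Ioo 0 1 ∩ arc j '' Set.Ioo 0 1).Finite

/-- The number of crossings of the edges `i` and `j` in a drawing: the number of common interior
points. -/
noncomputable def cross {n k : ℕ} {s t : Fin k → Fin n} (D : Drawing s t) (i j : Fin k) : ℕ :=
  (D.arc i '' Set.Ioo 0 1 ∩ D.arc j '' Set.Ioo 0 1).ncard

/-- The weighted number of crossings. -/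
noncomputable def crossings {n k : ℕ} {s t : Fin k → Fin n} (D : Drawing s t) (m : Fin k → ℕ) : ℕ :=
  ∑ j, ∑ i ∈ univ.filter (fun i => i < j), m i * m j * cross D i j

/-- The weighted crossing number. -/
noncomputable def cr {n k : ℕ} (s t : Fin k → Fin n) (m : Fin k → ℕ) : ℕ :=
  sInf (Set.range fun D : Drawing s t => crossings D m)

/-- `σ` is the edge map of an automorphism of the graph. -/
def IsAut {n k : ℕ} (s t : Fin k → Fin n) (σ : Equiv.Perm (Fin k)) : Prop :=
  ∃ φ : Equiv.Perm (Fin n), ∀ l, (s (σ l) = φ (s l) ∧ t (σ l) = φ (t l)) ∨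
    (s (σ l) = φ (t l) ∧ t (σ l) = φ (s l))

/-- The graph has a crossing-critical multiplication: there are multiplicities `m i ≥ 1` such that
deleting one copy of any edge lowers the crossing number. -/
def HasCritical {n k : ℕ} (s t : Fin k → Fin n) : Prop :=
  ∃ m : Fin k → ℕ, (∀ i, 1 ≤ m i) ∧ ∀ i, cr s t (Function.update m i (m i - 1)) < cr s t m

open Classical in
/-- For a colouring `π` of the edges with colours `Fin q`, multiplicities `μ` of the colours and a
threshold `c`: the alternating number of the sets `T` of colours for which the multiplication `μ`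
of the subgraph formed by the edges with colours in `T` has crossing number less than `c`. -/
noncomputable def eulerSum {n k q : ℕ} (s t : Fin k → Fin n) (π : Fin k → Fin q) (μ : Fin q → ℕ)
    (c : ℕ) : ℤ :=
  ∑ T : Finset (Fin q), if cr s t (fun i => if π i ∈ T then μ (π i) else 0) < c
    then (-1 : ℤ) ^ T.card else 0

/-- The crossing matrix of a drawing. -/
noncomputable def mat {n k : ℕ} {s t : Fin k → Fin n} (D : Drawing s t) : Fin k → Fin k → ℕ :=
  fun i j => if i = j then 0 else cross D i j

theorem cross_comm {n k : ℕ} {s t : Fin k → Fin n} (D : Drawing s t) (i j : Fin k) :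
    cross D i j = cross D j i := by
  unfold cross
  rw [Set.inter_comm]

theorem mat_symm {n k : ℕ} {s t : Fin k → Fin n} (D : Drawing s t) (i j : Fin k) :
    mat D i j = mat D j i := by
  unfold mat
  by_cases h : i = j
  · subst h; rfl
  · rw [if_neg h, if_neg (Ne.symm h), cross_comm]

theorem costN_mat {n k : ℕ} {s t : Fin k → Fin n} (D : Drawing s t) (m : Fin k → ℕ) :
    costN (mat D) m = 2 * crossings D m := by
  have h1 : costN (mat D) m = ∑ j, ∑ i, m i * m j * mat D i j := by
    unfold costN
    rw [Finset.sum_comm]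
  have h2 : ∀ j : Fin k, ∑ i, m i * m j * mat D i j =
      ∑ i ∈ univ.filter (fun i => i < j), m i * m j * cross D i j +
        ∑ i ∈ univ.filter (fun i => j < i), m i * m j * cross D i j := by
    intro j
    have h3 : ∀ i : Fin k, m i * m j * mat D i j =
        (if i < j then m i * m j * cross D i j else 0) +
          (if j < i then m i * m j * cross D i j else 0) := by
      intro i
      unfold mat
      rcases lt_trichotomy i j with h | h | h
      · simp [h, h.ne, not_lt.2 h.le]
      · subst h
        simp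
      · simp [h, h.ne', not_lt.2 h.le]
    rw [Finset.sum_congr rfl fun i _ => h3 i, Finset.sum_add_distrib, Finset.sum_filter,
      Finset.sum_filter]
  have h4 : ∑ j, ∑ i ∈ univ.filter (fun i => j < i), m i * m j * cross D i j =
      ∑ j, ∑ i ∈ univ.filter (fun i => i < j), m i * m j * cross D i j := by
    simp only [Finset.sum_filter]
    rw [Finset.sum_comm]
    refine Finset.sum_congr rfl fun j _ => Finset.sum_congr rfl fun i _ => ?_
    by_cases h : i < j
    · rw [if_pos h, if_pos h, cross_comm, mul_comm (m j)]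
    · rw [if_neg h, if_neg h]
  rw [h1, Finset.sum_congr rfl fun j _ => h2 j, Finset.sum_add_distrib, h4]
  unfold crossings
  ring

/-- Transport of a drawing by an automorphism. -/
theorem transport {n k : ℕ} {s t : Fin k → Fin n} {σ : Equiv.Perm (Fin k)} (hσ : IsAut s t σ)
    (D : Drawing s t) : ∃ D' : Drawing s t, ∀ i j, cross D' i j = cross D (σ i) (σ j) := by
  classical
  obtain ⟨φ, hφ⟩ := hσ
  set P : Fin k → Prop := fun l => s (σ l) = φ (s l) ∧ t (σ l) = φ (t l) with hP
  set ρ : Fin k → ℝ → ℝ := fun l x => if P l then x else 1 - x with hρ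
  have hρmem : ∀ l x, x ∈ Set.Icc (0 : ℝ) 1 → ρ l x ∈ Set.Icc (0 : ℝ) 1 := by
    intro l x hx
    by_cases h : P l
    · simpa [hρ, h] using hx
    · simp only [hρ, h, if_false, Set.mem_Icc]
      constructor <;> linarith [hx.1, hx.2]
  have hρmem' : ∀ l x, x ∈ Set.Ioo (0 : ℝ) 1 → ρ l x ∈ Set.Ioo (0 : ℝ) 1 := by
    intro l x hx
    by_cases h : P l
    · simpa [hρ, h] using hx
    · simp only [hρ, h, if_false, Set.mem_Ioo]
      constructor <;> linarith [hx.1, hx.2]
  have hρinv : ∀ l x, ρ l (ρ l x) = x := by
    intro l x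
    by_cases h : P l
    · simp [hρ, h]
    · simp [hρ, h]
  have himg : ∀ l, (fun x => D.arc (σ l) (ρ l x)) '' Set.Ioo 0 1 = D.arc (σ l) '' Set.Ioo 0 1 := by
    intro l
    ext z
    constructor
    · rintro ⟨x, hx, rfl⟩
      exact ⟨ρ l x, hρmem' l x hx, rfl⟩
    · rintro ⟨x, hx, rfl⟩
      refine ⟨ρ l x, hρmem' l x hx, ?_⟩
      simp only [hρinv]
  have hcont : ∀ l, Continuous (ρ l) := by
    intro l
    by_cases h : P l
    · simp only [hρ, h, if_true]
      exact continuous_id
    · simp only [hρ, h, if_false]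
      fun_prop
  let D' : Drawing s t :=
    { pt := fun v => D.pt (φ v)
      pt_inj := fun a b hab => φ.injective (D.pt_inj hab)
      arc := fun l x => D.arc (σ l) (ρ l x)
      arc_cont := fun l => (D.arc_cont (σ l)).comp (hcont l).continuousOn (hρmem l)
      arc_inj := fun l x hx y hy hxy => by
        have := D.arc_inj (σ l) (hρmem l x hx) (hρmem l y hy) hxy
        rw [← hρinv l x, this, hρinv]
      arc_zero := fun l => by
        by_cases h : P l
        · simp only [hρ, h, if_true]
          rw [D.arc_zero, h.1]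
        · simp only [hρ, h, if_false, sub_zero]
          rw [D.arc_one, ((hφ l).resolve_left h).2]
      arc_one := fun l => by
        by_cases h : P l
        · simp only [hρ, h, if_true]
          rw [D.arc_one, h.2]
        · simp only [hρ, h, if_false, sub_self]
          rw [D.arc_zero, ((hφ l).resolve_left h).1]
      avoid := fun l v x hx => D.avoid (σ l) (φ v) (ρ l x) (hρmem' l x hx)
      fin := fun i j hij => by
        rw [himg i, himg j]
        exact D.fin (σ i) (σ j) (fun h => hij (σ.injective h)) }
  refine ⟨D', fun i j => ?_⟩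
  unfold cross
  change ((fun x => D.arc (σ i) (ρ i x)) '' Set.Ioo 0 1 ∩
    (fun x => D.arc (σ j) (ρ j x)) '' Set.Ioo 0 1).ncard = _
  rw [himg i, himg j]

/-- The crossing number is below `c` exactly if some drawing has fewer than `c` crossings. -/
theorem cr_lt_iff {n k : ℕ} {s t : Fin k → Fin n} (hne : Nonempty (Drawing s t)) (m : Fin k → ℕ)
    (c : ℕ) : cr s t m < c ↔ ∃ D : Drawing s t, crossings D m < c := by
  constructor
  · intro h
    obtain ⟨D0⟩ := hne
    obtain ⟨D, hD⟩ := Nat.sInf_mem (s := Set.range fun D : Drawing s t => crossings D m)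
      ⟨_, ⟨D0, rfl⟩⟩
    exact ⟨D, lt_of_eq_of_lt hD h⟩
  · rintro ⟨D, hD⟩
    exact lt_of_le_of_lt (Nat.sInf_le ⟨D, rfl⟩) hD

theorem cr_eq_zero_of_empty {n k : ℕ} {s t : Fin k → Fin n} (hne : ¬ Nonempty (Drawing s t))
    (m : Fin k → ℕ) : cr s t m = 0 := by
  rw [not_nonempty_iff] at hne
  unfold cr
  rw [Set.range_eq_empty, Nat.sInf_empty]

theorem cr_mono {n k : ℕ} (s t : Fin k → Fin n) {m m' : Fin k → ℕ} (h : ∀ i, m i ≤ m' i) :
    cr s t m ≤ cr s t m' := by
  by_cases hne : Nonempty (Drawing s t)
  · by_contra hcon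
    obtain ⟨D, hD⟩ := (cr_lt_iff hne m' _).1 (not_le.1 hcon)
    have h1 : cr s t m ≤ crossings D m := Nat.sInf_le ⟨D, rfl⟩
    have h2 : crossings D m ≤ crossings D m' := by
      unfold crossings
      refine Finset.sum_le_sum fun j _ => Finset.sum_le_sum fun i _ => ?_
      exact Nat.mul_le_mul_right _ (Nat.mul_le_mul (h i) (h j))
    omega
  · rw [cr_eq_zero_of_empty hne, cr_eq_zero_of_empty hne]

/-- The criterion. -/
theorem sufficient {n k q : ℕ} (s t : Fin k → Fin n) (π : Fin k → Fin q)
    (hπ : ∀ i j, π i = π j → ∃ σ : Equiv.Perm (Fin k), IsAut s t σ ∧ σ i = j ∧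
      ∀ l, π (σ l) = π l)
    (μ : Fin q → ℕ) (hμ : ∀ p, 1 ≤ μ p) (c : ℕ) (h : eulerSum s t π μ c ≠ 0) :
    ∃ m : Fin k → ℕ, (∀ i, 2 ≤ m i) ∧ ∀ i, cr s t (Function.update m i (m i - 1)) < cr s t m := by
  classical
  rcases Nat.eq_zero_or_pos q with hq | hq
  · subst hq
    exact ⟨fun _ => 2, fun _ => le_rfl, fun i => (π i).elim0⟩
  have hc : 0 < c := by
    by_contra hcon
    have hc0 : c = 0 := by omega
    apply h
    unfold eulerSum
    apply Finset.sum_eq_zero
    intro T _
    rw [hc0, if_neg (Nat.not_lt_zero _)]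
  have hne : Nonempty (Drawing s t) := by
    by_contra hcon
    apply h
    unfold eulerSum
    have h1 : ∀ T : Finset (Fin q), (if cr s t (fun i => if π i ∈ T then μ (π i) else 0) < c
        then (-1 : ℤ) ^ T.card else 0) = (-1 : ℤ) ^ T.card := by
      intro T
      rw [if_pos]
      rw [cr_eq_zero_of_empty hcon]
      exact hc
    rw [Finset.sum_congr rfl fun T _ => h1 T]
    have : (univ : Finset (Fin q)).Nonempty := ⟨⟨0, hq⟩, mem_univ _⟩
    have h2 := Finset.sum_powerset_neg_one_pow_card_of_nonempty this
    rwa [Finset.powerset_univ] at h2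
  set X : Set (Fin k → Fin k → ℕ) := Set.range (fun D : Drawing s t => mat D) with hX
  have hsmall : ∀ T : Finset (Fin q), (∃ x ∈ X, costN x (fun i => if π i ∈ T then μ (π i) else 0) <
      2 * c) ↔ cr s t (fun i => if π i ∈ T then μ (π i) else 0) < c := by
    intro T
    rw [cr_lt_iff hne]
    constructor
    · rintro ⟨x, ⟨D, rfl⟩, hD⟩
      rw [costN_mat] at hD
      exact ⟨D, by omega⟩
    · rintro ⟨D, hD⟩
      refine ⟨mat D, ⟨D, rfl⟩, ?_⟩
      rw [costN_mat]
      omega
  obtain ⟨m, hm, N, hN, hlow⟩ := abstract_criterion X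
    (by rintro x ⟨D, rfl⟩ i j; exact mat_symm D i j) π
    (by
      intro i j hij
      obtain ⟨σ, hσ, hσi, hσπ⟩ := hπ i j hij
      refine ⟨σ, hσi, hσπ, ?_⟩
      rintro x ⟨D, rfl⟩
      obtain ⟨D', hD'⟩ := transport hσ D
      refine ⟨D', ?_⟩
      funext a b
      unfold mat
      by_cases hab : a = b
      · subst hab; simp
      · have hab' : σ a ≠ σ b := fun hh => hab (σ.injective hh)
        simp only [hab, hab', if_false]
        exact hD' a b)
    μ hμ (2 * c) (by omega) (by
      simp only [hsmall]
      unfold eulerSum at h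
      convert h)
  refine ⟨m, hm, fun i => ?_⟩
  obtain ⟨x, ⟨D, rfl⟩, hD⟩ := hlow i
  obtain ⟨D0, hD0⟩ : ∃ D0 : Drawing s t, crossings D0 m = cr s t m := by
    obtain ⟨D0⟩ := hne
    exact Nat.sInf_mem (s := Set.range fun D : Drawing s t => crossings D m) ⟨_, ⟨D0, rfl⟩⟩
  have h1 : cr s t (Function.update m i (m i - 1)) ≤
      crossings D (Function.update m i (m i - 1)) := Nat.sInf_le ⟨D, rfl⟩
  have h2 := hN (mat D0) ⟨D0, rfl⟩
  rw [costN_mat] at hD h2
  rw [← hD0]
  omega

/-- The converse. -/
theorem necessary {n k : ℕ} (s t : Fin k → Fin n) (h : HasCritical s t) :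
    ∃ μ : Fin k → ℕ, (∀ i, 1 ≤ μ i) ∧ ∃ c, eulerSum s t (fun i => i) μ c ≠ 0 := by
  classical
  obtain ⟨m, hm, hcr⟩ := h
  refine ⟨m, hm, ?_⟩
  rcases Nat.eq_zero_or_pos k with hk | hk
  · subst hk
    refine ⟨1, ?_⟩
    have h0 : ∀ m : Fin 0 → ℕ, cr s t m = 0 := by
      intro m
      by_cases hne : Nonempty (Drawing s t)
      · obtain ⟨D⟩ := hne
        have : cr s t m ≤ crossings D m := Nat.sInf_le ⟨D, rfl⟩
        have h2 : crossings D m = 0 := by simp [crossings]
        omega
      · exact cr_eq_zero_of_empty hne m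
    simp [eulerSum, h0]
  · refine ⟨cr s t m, ?_⟩
    unfold eulerSum
    have hall : ∑ T : Finset (Fin k), (-1 : ℤ) ^ T.card = 0 := by
      have : (univ : Finset (Fin k)).Nonempty := ⟨⟨0, hk⟩, mem_univ _⟩
      have h2 := Finset.sum_powerset_neg_one_pow_card_of_nonempty this
      rwa [Finset.powerset_univ] at h2
    have h1 : ∀ T : Finset (Fin k), (if cr s t (fun i => if i ∈ T then m i else 0) < cr s t m
        then (-1 : ℤ) ^ T.card else 0) = (-1 : ℤ) ^ T.card -
          (if T = univ then (-1 : ℤ) ^ T.card else 0) := by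
      intro T
      by_cases hT : T = univ
      · subst hT
        simp
      · rw [if_neg hT, sub_zero, if_pos]
        have hex : ∃ i, i ∉ T := by
          by_contra hcon
          push Not at hcon
          exact hT (Finset.eq_univ_iff_forall.2 hcon)
        obtain ⟨i, hi⟩ := hex
        refine lt_of_le_of_lt (cr_mono s t ?_) (hcr i)
        intro j
        by_cases hj : j = i
        · subst hj
          simp [hi]
        · rw [Function.update_of_ne hj]
          split_ifs
          · exact le_rfl
          · exact Nat.zero_le _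
    rw [Finset.sum_congr rfl fun T _ => h1 T, Finset.sum_sub_distrib, hall,
      Finset.sum_ite_eq' univ (univ : Finset (Fin k))]
    simp

/-- The colouring `π` is symmetric: any two edges of the same colour are exchanged by an
automorphism of the graph that preserves all colours. Injective colourings are symmetric. -/
def SymmetricColouring {n k q : ℕ} (s t : Fin k → Fin n) (π : Fin k → Fin q) : Prop :=
  ∀ i j, π i = π j → ∃ σ : Equiv.Perm (Fin k), IsAut s t σ ∧ σ i = j ∧ ∀ l, π (σ l) = π l

/-- **Euler characteristic criterion for crossing-critical multiplications.** The following are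
equivalent for a finite graph: it has a crossing-critical multiplication; for some multiplicities
`μ ≥ 1` of the edges and some threshold `c`, the alternating number of the sets of edges whose
multiplied subgraph has crossing number less than `c` is not zero; the same for the sets of colours
of some symmetric colouring of the edges. For `μ = 1` and `c = 1` the sets counted are the planar
sets of edges. -/
theorem result {n k : ℕ} (s t : Fin k → Fin n) :
    List.TFAE [HasCritical s t,
      ∃ μ : Fin k → ℕ, (∀ i, 1 ≤ μ i) ∧ ∃ c, eulerSum s t (fun i => i) μ c ≠ 0,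
      ∃ (q : ℕ) (π : Fin k → Fin q), SymmetricColouring s t π ∧
        ∃ μ : Fin q → ℕ, (∀ p, 1 ≤ μ p) ∧ ∃ c, eulerSum s t π μ c ≠ 0] := by
  tfae_have 1 → 2 := necessary s t
  tfae_have 2 → 3 := by
    rintro ⟨μ, hμ, c, h⟩
    refine ⟨k, fun i => i, ?_, μ, hμ, c, h⟩
    intro i j hij
    subst hij
    exact ⟨Equiv.refl _, ⟨Equiv.refl _, fun l => Or.inl ⟨rfl, rfl⟩⟩, rfl, fun l => rfl⟩
  tfae_have 3 → 1 := by
    rintro ⟨q, π, hπ, μ, hμ, c, h⟩
    obtain ⟨m, hm, hcr⟩ := sufficient s t π hπ μ hμ c h
    exact ⟨m, fun i => (one_le_two).trans (hm i), hcr⟩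
  tfae_finish

end Pool.Agent.Results.MP_3ebe94_co.EulerCriterion
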