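import Mathlib
import Pool.Agent.KUR.Main

/-!
# Kuratowski edges and crossing-critical multiplications

Is there, for every graph all of whose edges are Kuratowski edges, a crossing-critical
multiplication? The answer is no. The counterexample has 12 vertices and 20 edges: take two
disjoint copies of the graph obtained from `K33` by deleting an edge `uv` and adding an edge joining
the two other vertices of the colour class of `u`; join the two copies of `u` by an edge and the two
copies of `v` by an edge.

The definitions are in `Pool/Agent/KUR/Defs.lean` (`Drawing`, `cross`, `crossings`, `cr`, `mul`) and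
`Pool/Agent/KUR/Kura.lean` (`IsSimple`, `IsKuratowski`).
-/

set_option autoImplicit false

namespace Pool.Agent.Results.MP_3ebe94_co.NoCriticalMultiplication

open Pool.Agent.KUR

/-- The first ends of the 20 edges of the graph. Vertices `0, ..., 5` are the vertices
`u, v, a, b, c, d` of the first copy, where `u, a, b` and `v, c, d` are the colour classes; vertices
`6, ..., 11` are those of the second copy. -/
def src : Fin 20 → Fin 12 :=
  ![0, 0, 2, 3, 2, 2, 3, 3, 2, 6, 6, 8, 9, 8, 8, 9, 9, 8, 0, 1]

/-- The second ends of the 20 edges: `uc, ud, av, bv, ac, ad, bc, bd, ab`, the same for the second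
copy, and the two connecting edges. -/
def tgt : Fin 20 → Fin 12 :=
  ![4, 5, 1, 1, 4, 5, 4, 5, 3, 10, 11, 7, 7, 10, 11, 10, 11, 9, 6, 7]

/-- The graph is simple, all of its edges are Kuratowski edges, every multiplication has a drawing,
and every multiplication has an edge whose deletion does not change the crossing number, so no
multiplication is crossing-critical. -/
theorem result : IsSimple src tgt ∧ (∀ e, IsKuratowski src tgt e) ∧
    (∀ m : Fin 20 → ℕ, Nonempty (Drawing (mul src m) (mul tgt m))) ∧
    ∀ m : Fin 20 → ℕ, (∀ i, 1 ≤ m i) → ∃ e : Σ i, Fin (m i),
      cr (fun f : {f : Σ i, Fin (m i) // f ≠ e} => mul src m f)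
        (fun f : {f : Σ i, Fin (m i) // f ≠ e} => mul tgt m f) = cr (mul src m) (mul tgt m) :=
  ⟨simple_g, all_kuratowski, exists_drawing, exists_not_critical_edge⟩

end Pool.Agent.Results.MP_3ebe94_co.NoCriticalMultiplication
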